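import Pool.Agent.R572.SH.Defs

set_option autoImplicit false

/-! S_key (helper790): the number of finsets with at most `V` elements. -/

open Finset

namespace Pool.Agent.R572.SH

theorem s_key : ∀ (α : Type) [Fintype α] [DecidableEq α] (V : ℕ),
    ((univ : Finset (Finset α)).filter (fun K => K.card ≤ V)).card ≤ (Fintype.card α + 1) ^ V := by
  intro α _ _ V
  have hc : Fintype.card (Fin V → Option α) = (Fintype.card α + 1) ^ V := by
    rw [Fintype.card_fun, Fintype.card_option, Fintype.card_fin]
  rw [← hc, ← Finset.card_univ]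
  refine Finset.card_le_card_of_surjOn
    (fun f : Fin V → Option α => univ.filter fun a => ∃ i, f i = some a) ?_
  intro K hK
  have hK' : K.card ≤ V := by simpa using hK
  refine ⟨fun i => if h : (i : ℕ) < K.card then some (K.equivFin.symm ⟨i, h⟩ : α) else none,
    by simp, ?_⟩
  ext a
  simp only [mem_filter, mem_univ, true_and]
  constructor
  · rintro ⟨i, hi⟩
    split_ifs at hi with h
    · have h1 := (K.equivFin.symm ⟨i, h⟩).2
      simp only [Option.some.injEq] at hi
      rwa [hi] at h1
  · intro ha
    refine ⟨⟨K.equivFin ⟨a, ha⟩, (K.equivFin ⟨a, ha⟩).2.trans_le hK'⟩, ?_⟩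
    rw [dif_pos (K.equivFin ⟨a, ha⟩).2]
    simp

end Pool.Agent.R572.SH
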