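import Pool.Agent.R572.SH.Defs

/-!
# Averages over all settings
-/

set_option autoImplicit false

open Finset

namespace Pool.Agent.R572.SH

/-- One third of the settings vanish in a given cell. -/
theorem avg_cell (m : ℕ) (i j : Fin m) :
    3 * ((univ : Finset (Fin m → Fin m → Fin 3)).filter (fun σ => σ i j = 0)).card
      = 3 ^ (m * m) := by
  classical
  have hc : ∀ c : Fin 3,
      ((univ : Finset (Fin m → Fin m → Fin 3)).filter (fun σ => σ i j = c)).card
      = ((univ : Finset (Fin m → Fin m → Fin 3)).filter (fun σ => σ i j = 0)).card := by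
    intro c
    refine Finset.card_bij
      (fun σ _ => fun i' j' => if i' = i ∧ j' = j then 0 else σ i' j') ?_ ?_ ?_
    · intro σ hσ
      simp only [mem_filter, mem_univ, true_and] at hσ ⊢
      simp
    · intro σ hσ τ hτ h
      simp only [mem_filter, mem_univ, true_and] at hσ hτ
      funext i' j'
      have h1 := congrFun (congrFun h i') j'
      by_cases h2 : i' = i ∧ j' = j
      · rw [h2.1, h2.2, hσ, hτ]
      · simpa [h2] using h1
    · intro τ hτ
      simp only [mem_filter, mem_univ, true_and] at hτ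
      refine ⟨fun i' j' => if i' = i ∧ j' = j then c else τ i' j', by simp, ?_⟩
      funext i' j'
      by_cases h2 : i' = i ∧ j' = j
      · rw [h2.1, h2.2]; simp [hτ]
      · simp [h2]
  have hs := Finset.card_eq_sum_card_fiberwise
    (f := fun σ : Fin m → Fin m → Fin 3 => σ i j)
    (s := (univ : Finset (Fin m → Fin m → Fin 3))) (t := (univ : Finset (Fin 3)))
    (by intro x _; simp)
  rw [Finset.sum_congr rfl (fun c _ => hc c), Finset.sum_const, Finset.card_univ,
    Finset.card_univ, Fintype.card_fin, smul_eq_mul] at hs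
  rw [← hs]
  simp [pow_mul]

/-- The average number of zeros. -/
theorem avg_zeros (m : ℕ) :
    3 * ∑ σ : Fin m → Fin m → Fin 3,
      ((univ : Finset (Fin m × Fin m)).filter (fun p => σ p.1 p.2 = 0)).card
      = m * m * 3 ^ (m * m) := by
  classical
  have h1 : ∑ σ : Fin m → Fin m → Fin 3,
      ((univ : Finset (Fin m × Fin m)).filter (fun p => σ p.1 p.2 = 0)).card
      = ∑ p : Fin m × Fin m,
        ((univ : Finset (Fin m → Fin m → Fin 3)).filter (fun σ => σ p.1 p.2 = 0)).card := by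
    simp only [Finset.card_filter]
    rw [Finset.sum_comm]
  rw [h1, Finset.mul_sum, Finset.sum_congr rfl (fun p _ => avg_cell m p.1 p.2),
    Finset.sum_const, Finset.card_univ, Fintype.card_prod, Fintype.card_fin, smul_eq_mul]

theorem s_avg : ∀ (m R k V d K : ℕ) (E : Finset (Fin m → Fin m → Fin 3))
    (a : (Fin m → Fin m → Fin 3) → ℕ) (B : Zone m → Finset (Fin m → Fin m → Fin 3)),
    (∀ σ ∉ E, ((univ : Finset (Fin m × Fin m)).filter (fun p => σ p.1 p.2 = 0)).card ≤
      m * a σ + m * ((univ : Finset (Zone m)).filter (fun z => σ ∈ B z)).card + 2 * m * d +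
        9 * k ^ 2 * R) →
    (∀ σ ∉ E, (V + 1) * a σ ≤ 3 * k * R) →
    (∀ z, (B z).card * 2 ^ d ≤ K * 3 ^ (m * m)) → 32 * K ≤ 2 ^ d →
    64 * E.card ≤ 3 ^ (m * m) → 0 < m → 36 * k * R ≤ m * (V + 1) → 24 * d ≤ m →
    108 * k ^ 2 * R ≤ m ^ 2 → False := by
  classical
  intro m R k V d K E a B h1 h2 h3 h4 h5 h6 h7 h8 h9
  have hW : Fintype.card (Fin m → Fin m → Fin 3) = 3 ^ (m * m) := by
    simp [pow_mul]
  have hz := avg_zeros m
  set W : ℕ := 3 ^ (m * m) with hWdef
  have hWpos : 0 < W := by positivity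
  set z0 : (Fin m → Fin m → Fin 3) → ℕ :=
    fun σ => ((univ : Finset (Fin m × Fin m)).filter (fun p => σ p.1 p.2 = 0)).card with hz0def
  set b : (Fin m → Fin m → Fin 3) → ℕ :=
    fun σ => ((univ : Finset (Zone m)).filter (fun z => σ ∈ B z)).card with hbdef
  -- each `B z` is small
  have hB : ∀ z, 32 * (B z).card ≤ W := by
    intro z
    have hp : 0 < 2 ^ d := by positivity
    refine Nat.le_of_mul_le_mul_right ?_ hp
    calc 32 * (B z).card * 2 ^ d = 32 * ((B z).card * 2 ^ d) := by ring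
      _ ≤ 32 * (K * W) := Nat.mul_le_mul_left _ (h3 z)
      _ = 32 * K * W := by ring
      _ ≤ 2 ^ d * W := Nat.mul_le_mul_right _ h4
      _ = W * 2 ^ d := by ring
  have hbsum : ∑ σ, b σ = ∑ z : Zone m, (B z).card := by
    simp only [hbdef, Finset.card_filter]
    rw [Finset.sum_comm]
    refine Finset.sum_congr rfl fun z _ => ?_
    rw [Finset.sum_ite_mem, Finset.univ_inter, Finset.sum_const, smul_eq_mul, mul_one]
  have hbW : 32 * ∑ σ, b σ ≤ 2 * m * W := by
    rw [hbsum, Finset.mul_sum]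
    calc ∑ z : Zone m, 32 * (B z).card ≤ ∑ _z : Zone m, W := Finset.sum_le_sum fun z _ => hB z
      _ = 2 * m * W := by
        rw [Finset.sum_const, Finset.card_univ, smul_eq_mul]
        simp [two_mul]
  have ha : ∀ σ ∉ E, 12 * (m * a σ) ≤ m * m := by
    intro σ hσ
    refine Nat.le_of_mul_le_mul_right ?_ (Nat.succ_pos V)
    calc 12 * (m * a σ) * (V + 1) = 12 * m * ((V + 1) * a σ) := by ring
      _ ≤ 12 * m * (3 * k * R) := Nat.mul_le_mul_left _ (h2 σ hσ)
      _ = m * (36 * k * R) := by ring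
      _ ≤ m * (m * (V + 1)) := Nat.mul_le_mul_left _ h7
      _ = m * m * (V + 1) := by ring
  have hd : 24 * (m * d) ≤ m * m := by
    calc 24 * (m * d) = m * (24 * d) := by ring
      _ ≤ m * m := Nat.mul_le_mul_left _ h8
  have hk : 108 * (k ^ 2 * R) ≤ m * m := by
    calc 108 * (k ^ 2 * R) = 108 * k ^ 2 * R := by ring
      _ ≤ m ^ 2 := h9
      _ = m * m := by ring
  have hout : ∀ σ ∈ Eᶜ, 192 * z0 σ ≤ 48 * (m * m) + 192 * (m * b σ) := by
    intro σ hσ
    have hσ' : σ ∉ E := by simpa using hσ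
    have e1 := h1 σ hσ'
    have e2 := ha σ hσ'
    have e3 : z0 σ ≤ m * a σ + m * b σ + 2 * (m * d) + 9 * (k ^ 2 * R) := by
      calc z0 σ ≤ _ := e1
        _ = m * a σ + m * b σ + 2 * (m * d) + 9 * (k ^ 2 * R) := by ring
    omega
  have hin : ∀ σ ∈ E, z0 σ ≤ m * m := by
    intro σ _
    calc z0 σ ≤ (univ : Finset (Fin m × Fin m)).card := Finset.card_filter_le _ _
      _ = m * m := by simp
  have hsplit : ∑ σ, z0 σ = ∑ σ ∈ E, z0 σ + ∑ σ ∈ Eᶜ, z0 σ :=
    (Finset.sum_add_sum_compl E z0).symm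
  have hE : ∑ σ ∈ E, z0 σ ≤ E.card * (m * m) := by
    calc ∑ σ ∈ E, z0 σ ≤ ∑ _σ ∈ E, m * m := Finset.sum_le_sum hin
      _ = E.card * (m * m) := by rw [Finset.sum_const, smul_eq_mul]
  have hC : 192 * ∑ σ ∈ Eᶜ, z0 σ ≤ 48 * (m * m) * W + 192 * m * ∑ σ, b σ := by
    rw [Finset.mul_sum]
    calc ∑ σ ∈ Eᶜ, 192 * z0 σ ≤ ∑ σ ∈ Eᶜ, (48 * (m * m) + 192 * (m * b σ)) :=
          Finset.sum_le_sum hout
      _ ≤ ∑ σ, (48 * (m * m) + 192 * (m * b σ)) :=
          Finset.sum_le_sum_of_subset (Finset.subset_univ _)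
      _ = 48 * (m * m) * W + 192 * m * ∑ σ, b σ := by
          rw [Finset.sum_add_distrib, Finset.sum_const, Finset.card_univ, hW, smul_eq_mul,
            ← Finset.mul_sum, ← Finset.mul_sum]
          ring
  have hC2 : 192 * m * ∑ σ, b σ ≤ 12 * (m * m * W) := by
    calc 192 * m * ∑ σ, b σ = 6 * m * (32 * ∑ σ, b σ) := by ring
      _ ≤ 6 * m * (2 * m * W) := Nat.mul_le_mul_left _ hbW
      _ = 12 * (m * m * W) := by ring
  have hE2 : 192 * (E.card * (m * m)) ≤ 3 * (m * m * W) := by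
    calc 192 * (E.card * (m * m)) = 3 * (m * m) * (64 * E.card) := by ring
      _ ≤ 3 * (m * m) * W := Nat.mul_le_mul_left _ h5
      _ = 3 * (m * m * W) := by ring
  have hC3 : 48 * (m * m) * W = 48 * (m * m * W) := by ring
  have hpos : 0 < m * m * W := by positivity
  rw [hC3] at hC
  generalize m * m * W = X at *
  generalize 192 * m * ∑ σ, b σ = Y at *
  generalize ∑ σ ∈ E, z0 σ = P at *
  generalize ∑ σ ∈ Eᶜ, z0 σ = Q at *
  generalize ∑ σ, z0 σ = S at *
  generalize E.card * (m * m) = U at *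
  omega

end Pool.Agent.R572.SH
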