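import Pool.Agent.R572.SH.Defs

/-!
# Few bad matrices for a zone
-/

set_option autoImplicit false

open Finset

namespace Pool.Agent.R572.SH

/-- The matrix `σ` where the cells of `z` in `S` get the value `on z`. -/
def updZ {m : ℕ} (σ : Fin m → Fin m → Fin 3) (z : Zone m) (S : Finset (Fin m)) :
    Fin m → Fin m → Fin 3 :=
  match z with
  | .inl i₀ => fun i j => if i = i₀ ∧ j ∈ S then 1 else σ i j
  | .inr j₀ => fun i j => if j = j₀ ∧ i ∈ S then 2 else σ i j

lemma val_updZ {m : ℕ} (σ : Fin m → Fin m → Fin 3) (z : Zone m) (S : Finset (Fin m)) (t : Fin m) :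
    val (updZ σ z S) z t = if t ∈ S then on z else val σ z t := by
  cases z with
  | inl i₀ => simp [val, updZ, cell, on]
  | inr j₀ => simp [val, updZ, cell, on]

lemma on_ne_zero {m : ℕ} (z : Zone m) : (0 : Fin 3) ≠ on z := by
  cases z <;> simp [on]

lemma enc_updZ {m : ℕ} (σ : Fin m → Fin m → Fin 3) (z : Zone m) (S : Finset (Fin m))
    (h0 : ∀ t ∈ S, val σ z t = 0) (z' : Zone m) (hz : z' ≠ z) :
    enc (updZ σ z S) z' = enc σ z' := by
  funext t
  unfold enc
  rw [decide_eq_decide]
  cases z with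
  | inl i₀ =>
    cases z' with
    | inl i =>
      have hi : i ≠ i₀ := fun h => hz (by rw [h])
      simp [val, updZ, cell, hi]
    | inr j =>
      by_cases h : t = i₀ ∧ j ∈ S
      · have h1 := h0 j h.2
        simp only [val, cell] at h1
        obtain ⟨ht, hj⟩ := h
        subst ht
        simp [val, updZ, cell, on, hj, h1]
      · simp [val, updZ, cell, on, h]
  | inr j₀ =>
    cases z' with
    | inl i =>
      by_cases h : t = j₀ ∧ i ∈ S
      · have h1 := h0 i h.2
        simp only [val, cell] at h1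
        obtain ⟨ht, hj⟩ := h
        subst ht
        simp [val, updZ, cell, on, hj, h1]
      · simp [val, updZ, cell, on, h]
    | inr j =>
      have hi : j ≠ j₀ := fun h => hz (by rw [h])
      simp [val, updZ, cell, hi]

lemma updZ_inj {m : ℕ} (σ σ' : Fin m → Fin m → Fin 3) (z : Zone m) (S : Finset (Fin m))
    (h0 : ∀ t ∈ S, val σ z t = 0) (h0' : ∀ t ∈ S, val σ' z t = 0)
    (h : updZ σ z S = updZ σ' z S) : σ = σ' := by
  funext i j
  have hij := congrFun (congrFun h i) j
  cases z with
  | inl i₀ =>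
    by_cases hc : i = i₀ ∧ j ∈ S
    · obtain ⟨hi, hj⟩ := hc
      subst hi
      have h1 := h0 j hj
      have h2 := h0' j hj
      simp only [val, cell] at h1 h2
      rw [h1, h2]
    · simpa [updZ, hc] using hij
  | inr j₀ =>
    by_cases hc : j = j₀ ∧ i ∈ S
    · obtain ⟨hj, hi⟩ := hc
      subst hj
      have h1 := h0 i hi
      have h2 := h0' i hi
      simp only [val, cell] at h1 h2
      rw [h1, h2]
    · simpa [updZ, hc] using hij

theorem s_bad : ∀ (m d : ℕ) (K : Type) [Fintype K] [DecidableEq K] (z : Zone m)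
    (key : (Fin m → Fin m → Fin 3) → K) (X : Finset (Fin m → Fin m → Fin 3))
    (Fr : (Fin m → Fin m → Fin 3) → Finset (Fin m)),
    (∀ σ ∈ X, ∀ t ∈ Fr σ, val σ z t = 0) → (∀ σ ∈ X, d ≤ (Fr σ).card) →
    (∀ σ ∈ X, ∀ σ' ∈ X, (∀ z', z' ≠ z → enc σ z' = enc σ' z') → key σ = key σ' → Fr σ = Fr σ') →
    X.card * 2 ^ d ≤ Fintype.card K * 3 ^ (m * m) := by
  intro m d K _ _ z key X Fr hval hcard hFr
  classical
  have hD : ∀ F : Finset (Fin m), ∃ D : Finset (Fin m), D ⊆ F ∧ (d ≤ F.card → D.card = d) := by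
    intro F
    by_cases h : d ≤ F.card
    · obtain ⟨D, h1, h2⟩ := Finset.exists_subset_card_eq h
      exact ⟨D, h1, fun _ => h2⟩
    · exact ⟨∅, Finset.empty_subset _, fun h' => absurd h' h⟩
  choose D hDs hDc using hD
  have hkey : (X.sigma (fun σ => (D (Fr σ)).powerset)).card ≤
      (Finset.univ : Finset (K × (Fin m → Fin m → Fin 3))).card := by
    apply Finset.card_le_card_of_injOn
      (fun p : (Σ _ : (Fin m → Fin m → Fin 3), Finset (Fin m)) => (key p.1, updZ p.1 z p.2))
    · intro p _
      simp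
    · rintro ⟨σ, S⟩ hp ⟨σ', S'⟩ hp' heq
      simp only [Finset.coe_sigma, Set.mem_sigma_iff, Finset.mem_coe, Finset.mem_powerset] at hp hp'
      simp only [Prod.mk.injEq] at heq
      obtain ⟨hk, hu⟩ := heq
      obtain ⟨hσ, hS⟩ := hp
      obtain ⟨hσ', hS'⟩ := hp'
      have h0 : ∀ t ∈ S, val σ z t = 0 := fun t ht => hval σ hσ t (hDs _ (hS ht))
      have h0' : ∀ t ∈ S', val σ' z t = 0 := fun t ht => hval σ' hσ' t (hDs _ (hS' ht))
      have hF : Fr σ = Fr σ' := by
        apply hFr σ hσ σ' hσ' _ hk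
        intro z' hz'
        rw [← enc_updZ σ z S h0 z' hz', ← enc_updZ σ' z S' h0' z' hz', hu]
      have hSS : S = S' := by
        ext t
        have hv : val (updZ σ z S) z t = val (updZ σ' z S') z t := by rw [hu]
        rw [val_updZ, val_updZ] at hv
        constructor
        · intro ht
          by_contra ht'
          rw [if_pos ht, if_neg ht'] at hv
          have : val σ' z t = 0 := hval σ' hσ' t (by rw [← hF]; exact hDs _ (hS ht))
          rw [this] at hv
          exact on_ne_zero z hv.symm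
        · intro ht'
          by_contra ht
          rw [if_neg ht, if_pos ht'] at hv
          have : val σ z t = 0 := hval σ hσ t (by rw [hF]; exact hDs _ (hS' ht'))
          rw [this] at hv
          exact on_ne_zero z hv
      subst hSS
      have := updZ_inj σ σ' z S h0 h0' hu
      subst this
      rfl
  rw [Finset.card_sigma] at hkey
  have hs : ∑ σ ∈ X, ((D (Fr σ)).powerset).card = X.card * 2 ^ d := by
    rw [Finset.sum_congr rfl (fun σ hσ => by
      rw [Finset.card_powerset, hDc _ (hcard σ hσ)])]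
    simp
  rw [hs] at hkey
  refine hkey.trans (le_of_eq ?_)
  rw [Finset.card_univ, Fintype.card_prod, Fintype.card_fun, Fintype.card_fun, Fintype.card_fin,
    Fintype.card_fin, ← pow_mul]

end Pool.Agent.R572.SH
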