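import Pool.Agent.R572.SH.Stm

set_option autoImplicit false

open Finset

namespace Pool.Agent.R572.SH

theorem core_dev (hkey : S_key) (hhyb : S_hyb) (hbad : S_bad) (hpairs : S_pairs)
    (havg : S_avg) : S_core := by
  intro m R k V d C _ A E hs hE hEc hm hV hK hd hR
  classical
  -- some element outside of `E`
  have hne : ∃ σ₀, σ₀ ∉ E := by
    by_contra hcon
    push Not at hcon
    have h1 : E = univ := Finset.eq_univ_of_forall hcon
    rw [h1, Finset.card_univ] at hEc
    have h2 : Fintype.card (Fin m → Fin m → Fin 3) = 3 ^ (m * m) := by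
      simp [pow_mul]
    rw [h2] at hEc
    have h3 : 0 < 3 ^ (m * m) := by positivity
    omega
  obtain ⟨σ₀, hσ₀⟩ := hne
  obtain ⟨β₀, _⟩ := hE σ₀ hσ₀
  have : Nonempty (ℕ → C) := ⟨β₀⟩
  choose! b hb using hE
  -- keys
  let key : (Fin m → Fin m → Fin 3) → Zone m → Finset (Fin R × C × C) := fun σ z =>
    (univ.filter (fun s : Fin R => z ∈ A.reg (b σ s))).image
      (fun s => (s, b σ s, b σ (s + 1)))
  let v : (Fin m → Fin m → Fin 3) → Zone m → ℕ := fun σ z =>
    (univ.filter (fun s : Fin R => z ∈ A.reg (b σ s))).card
  have hkv : ∀ σ z, (key σ z).card ≤ v σ z := fun σ z => card_image_le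
  let Fz : (Fin m → Fin m → Fin 3) → Zone m → Finset (Fin m) := fun σ z =>
    univ.filter (fun t => val σ z t = 0 ∧ ∀ σ' ∉ E, (∀ z', z' ≠ z → enc σ z' = enc σ' z') →
      key σ z = key σ' z → val σ' z t ≠ on z)
  let Bd : Zone m → Finset (Fin m → Fin m → Fin 3) := fun z =>
    univ.filter (fun σ => σ ∉ E ∧ v σ z ≤ V ∧ d ≤ (Fz σ z).card)
  -- windows of other elements with the same key
  have hwin : ∀ σ, ∀ σ₁ ∉ E, ∀ z, (∀ z', z' ≠ z → enc σ z' = enc σ₁ z') → key σ z = key σ₁ z →
      ∀ s < R, z ∈ A.reg (b σ s) →
        A.G (Function.update (enc σ) z (enc σ₁ z)) (b σ s) (b σ (s + 1)) := by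
    intro σ σ₁ h1 z hf hk' s hsR hz
    have e : Function.update (enc σ) z (enc σ₁ z) = enc σ₁ := by
      funext z'
      by_cases h : z' = z
      · subst h; simp
      · rw [Function.update_of_ne h]; exact hf z' h
    rw [e]
    have hmem : ((⟨s, hsR⟩ : Fin R), b σ s, b σ (s + 1)) ∈ key σ z := by
      simp only [key, mem_image, mem_filter, mem_univ, true_and]
      exact ⟨⟨s, hsR⟩, hz, rfl⟩
    rw [hk'] at hmem
    simp only [key, mem_image, mem_filter, mem_univ, true_and, Prod.mk.injEq] at hmem
    obtain ⟨s', h2, h3, h4, h5⟩ := hmem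
    subst h3
    simp only at h4 h5
    rw [← h4, ← h5]
    exact (hb σ₁ h1).2.2 s hsR
  refine havg m R k V d ((R * Fintype.card C ^ 2 + 1) ^ V) E
    (fun σ => (univ.filter (fun z => V < v σ z)).card) Bd ?_ ?_ ?_ hK hEc hm hV hd hR
  · intro σ hσ
    refine hpairs m R k d _ (univ.filter (fun z => V < v σ z)) (univ.filter (fun z => σ ∈ Bd z))
      (Fz σ) (fun s => A.reg (b σ s)) ?_ (fun s => A.reg_card _) ?_
    · intro z h1 h2
      simp only [mem_filter, mem_univ, true_and, not_lt] at h1
      simp only [Bd, mem_filter, mem_univ, true_and, not_and] at h2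
      have := h2 hσ h1
      omega
    · intro p hp
      obtain ⟨i, j⟩ := p
      simp only [mem_filter, mem_univ, true_and] at hp
      by_contra hcon
      simp only [not_or] at hcon
      obtain ⟨hA1, hA2, hB1, hB2, hF1, hF2, hco⟩ := hcon
      have hF1' : j ∉ Fz σ (.inl i) := fun h => hF1 ⟨hA1, hB1, h⟩
      have hF2' : i ∉ Fz σ (.inr j) := fun h => hF2 ⟨hA2, hB2, h⟩
      simp only [Fz, mem_filter, mem_univ, true_and, not_and] at hF1' hF2'
      have g1 := hF1' (by simpa [val, cell] using hp)
      have g2 := hF2' (by simpa [val, cell] using hp)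
      push Not at g1 g2
      obtain ⟨σ₁, h11, h12, h13, h14⟩ := g1
      obtain ⟨σ₂, h21, h22, h23, h24⟩ := g2
      have hT := hhyb m k R C A (enc σ) (b σ) (hb σ hσ) (.inl i) (.inr j) (enc σ₁ (.inl i))
        (enc σ₂ (.inr j)) (fun s hs' h3 h4 => hco ⟨s, hs', h3, h4⟩)
        (hwin σ σ₁ h11 _ h12 h13) (hwin σ σ₂ h21 _ h22 h23)
      refine hs _ _ hT ⟨i, j, ?_, ?_⟩
      · rw [Function.update_of_ne (by simp), Function.update_self]
        simpa [enc] using h14
      · rw [Function.update_self]
        simpa [enc] using h24
  · intro σ hσ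
    have h1 : ∑ z, v σ z ≤ 3 * k * R := by
      have e1 : ∀ z, v σ z = ∑ s : Fin R, if z ∈ A.reg (b σ s) then 1 else 0 := by
        intro z
        simp only [v, card_filter]
      simp only [e1]
      rw [Finset.sum_comm]
      refine (Finset.sum_le_sum (g := fun _ => 3 * k) ?_).trans ?_
      · intro s _
        rw [← card_filter]
        have : (univ.filter (fun z => z ∈ A.reg (b σ s))) = A.reg (b σ s) := by
          ext z; simp
        rw [this]
        exact A.reg_card _
      · simp [mul_comm]
    refine le_trans ?_ h1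
    calc (V + 1) * (univ.filter (fun z => V < v σ z)).card
        = ∑ z ∈ univ.filter (fun z => V < v σ z), (V + 1) := by
          rw [sum_const, smul_eq_mul, mul_comm]
      _ ≤ ∑ z ∈ univ.filter (fun z => V < v σ z), v σ z := by
          apply sum_le_sum
          intro z hz
          simp only [mem_filter, mem_univ, true_and] at hz
          omega
      _ ≤ ∑ z, v σ z := sum_le_sum_of_subset (filter_subset _ _)
  · intro z
    let KT : Type := {K : Finset (Fin R × C × C) // K.card ≤ V}
    let key' : (Fin m → Fin m → Fin 3) → KT := fun σ =>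
      if h : (key σ z).card ≤ V then ⟨key σ z, h⟩ else ⟨∅, by simp⟩
    have hb1 := hbad m d KT z key' (Bd z) (fun σ => Fz σ z) ?_ ?_ ?_
    · refine hb1.trans (Nat.mul_le_mul_right _ ?_)
      have h2 := hkey (Fin R × C × C) V
      have h3 : Fintype.card KT =
          ((univ : Finset (Finset (Fin R × C × C))).filter (fun K => K.card ≤ V)).card := by
        rw [Fintype.card_subtype]
      rw [h3]
      refine h2.trans (le_of_eq ?_)
      congr 2
      simp [pow_two]
    · intro σ hσ t ht
      simp only [Fz, mem_filter, mem_univ, true_and] at ht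
      exact ht.1
    · intro σ hσ
      simp only [Bd, mem_filter, mem_univ, true_and] at hσ
      exact hσ.2.2
    · intro σ hσ σ' hσ' hf hk'
      simp only [Bd, mem_filter, mem_univ, true_and] at hσ hσ'
      have e1 : (key σ z).card ≤ V := (hkv σ z).trans hσ.2.1
      have e2 : (key σ' z).card ≤ V := (hkv σ' z).trans hσ'.2.1
      have hkk : key σ z = key σ' z := by
        simp only [key', dif_pos e1, dif_pos e2] at hk'
        exact congrArg Subtype.val hk'
      -- a symmetric statement
      have main : ∀ σ σ', σ' ∉ E → (∀ z', z' ≠ z → enc σ z' = enc σ' z') →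
          key σ z = key σ' z → Fz σ z ⊆ Fz σ' z := by
        intro σ σ' hσ' hf hkk t ht
        simp only [Fz, mem_filter, mem_univ, true_and] at ht ⊢
        refine ⟨?_, ?_⟩
        · have h1 := ht.2 σ' hσ' hf hkk
          have h0 := ht.1
          cases z with
          | inl i =>
            have h2 : σ i t = 2 ↔ σ' i t = 2 :=
              decide_eq_decide.mp (congrFun (hf (.inr t) (by simp)) i)
            simp only [val, cell, on] at h1 h0 ⊢
            have h3 : ¬ (σ' i t = 2) := by
              rw [← h2, h0]
              decide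
            revert h1 h3
            generalize σ' i t = q
            intro h1 h3
            fin_cases q
            · rfl
            · exact absurd rfl h1
            · exact absurd rfl h3
          | inr j =>
            have h2 : σ t j = 1 ↔ σ' t j = 1 :=
              decide_eq_decide.mp (congrFun (hf (.inl t) (by simp)) j)
            simp only [val, cell, on] at h1 h0 ⊢
            have h3 : ¬ (σ' t j = 1) := by
              rw [← h2, h0]
              decide
            revert h1 h3
            generalize σ' t j = q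
            intro h1 h3
            fin_cases q
            · rfl
            · exact absurd rfl h3
            · exact absurd rfl h1
        · intro σ'' h3 h4 h5
          exact ht.2 σ'' h3 (fun z' hz' => (hf z' hz').trans (h4 z' hz')) (hkk.trans h5)
      exact Finset.Subset.antisymm (main σ σ' hσ'.1 hf hkk)
        (main σ' σ hσ.1 (fun z' hz' => (hf z' hz').symm) hkk.symm)

end Pool.Agent.R572.SH
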