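import Mathlib

/-!
# Slow heads and matrices of weights in which each edge is a shortest path
-/

set_option autoImplicit false

open Finset

namespace Pool.Agent.R572.SH

/-- The length of the walk `u, l₁, …, l_r, v`. -/
def walkLen {N : ℕ} (w : Fin N → Fin N → ℕ) : Fin N → List (Fin N) → Fin N → ℕ
  | u, [], v => w u v
  | u, a :: l, v => w u a + walkLen w a l v

/-- Each edge is a shortest path: no walk from `u` to `v` is shorter than the edge from `u` to
`v`. -/
def AllShortest {N : ℕ} (w : Fin N → Fin N → ℕ) : Prop :=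
  ∀ (u v : Fin N) (l : List (Fin N)), w u v ≤ walkLen w u l v

/-- The matrix of weights of a complete directed graph with weights `1`, `2`, `3`. -/
def IsWeights {N : ℕ} (w : Fin N → Fin N → ℕ) : Prop :=
  (∀ u, w u u = 0) ∧ ∀ u v, u ≠ v → 1 ≤ w u v ∧ w u v ≤ 3

/-- The matrix, written row by row. -/
def rowWord {N : ℕ} (w : Fin N → Fin N → ℕ) : Fin (N * N) → ℕ :=
  fun p => w p.divNat p.modNat

/-- The zones: `m` left zones and `m` right zones. -/
abbrev Zone (m : ℕ) : Type := Fin m ⊕ Fin m

/-- The contents of the zones. -/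
abbrev Cont (m : ℕ) : Type := Zone m → Fin m → Bool

/-- The coordinate `t` of the zone `z` belongs to this cell. -/
def cell {m : ℕ} : Zone m → Fin m → Fin m × Fin m
  | .inl i, t => (i, t)
  | .inr j, t => (t, j)

/-- The value in a cell which gives the bit `1` in the zone. -/
def on {m : ℕ} : Zone m → Fin 3
  | .inl _ => 1
  | .inr _ => 2

/-- The value in a cell. -/
def val {m : ℕ} (σ : Fin m → Fin m → Fin 3) (z : Zone m) (t : Fin m) : Fin 3 :=
  σ (cell z t).1 (cell z t).2

/-- The contents given by `σ`. -/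
def enc {m : ℕ} (σ : Fin m → Fin m → Fin 3) : Cont m := fun z t => decide (val σ z t = on z)

/-- The row of a zone. -/
def rowOf {m : ℕ} : Zone m → ℕ
  | .inl i => i
  | .inr j => m + j

/-- The weights given by the contents `y` of the zones. -/
def wt {m : ℕ} (N : ℕ) (y : Cont m) (u v : Fin N) : ℕ :=
  if u = v then 0
  else if h : ((u : ℕ) < m ∧ m ≤ (v : ℕ) ∧ (v : ℕ) < 2 * m) then
    (if y (.inl ⟨u, h.1⟩) ⟨v - m, by omega⟩ then 1 else 2)
  else if h : (m ≤ (u : ℕ) ∧ (u : ℕ) < 2 * m ∧ 2 * m ≤ (v : ℕ) ∧ (v : ℕ) < 3 * m) then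
    (if y (.inr ⟨u - m, by omega⟩) ⟨v - 2 * m, by omega⟩ then 1 else 2)
  else if (u : ℕ) < m ∧ (v : ℕ) = 2 * m + u then 3
  else 2

/-- A system of windows. -/
structure Sys (m k : ℕ) (C : Type) where
  /-- the window leads from `c` to `c'` -/
  G : Cont m → C → C → Prop
  /-- initial -/
  init : C → Prop
  /-- accepting -/
  acc : C → Prop
  /-- the zones which can be touched in a window which starts with `c` -/
  reg : C → Finset (Zone m)
  /-- a bound for the number of these zones -/
  reg_card : ∀ c, (reg c).card ≤ 3 * k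
  /-- windows depend only on the touched zones -/
  loc : ∀ (x x' : Cont m) (c c' : C), (∀ z ∈ reg c, x z = x' z) → G x c c' → G x' c c'

/-- `β` is an accepting sequence of `R` windows for `x`. -/
def Sys.Tr {m k : ℕ} {C : Type} (A : Sys m k C) (R : ℕ) (x : Cont m) (β : ℕ → C) : Prop :=
  A.init (β 0) ∧ A.acc (β R) ∧ ∀ s < R, A.G x (β s) (β (s + 1))

end Pool.Agent.R572.SH
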