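import Pool.Agent.R572.SH.Defs
import Pool.Agent.TH457.HT.Defs
import Pool.Agent.TH457.HT.DetDefs

/-! # Deterministic programs are nondeterministic programs -/

set_option autoImplicit false

open Finset

namespace Pool.Agent.R572.SH

open Pool.Agent.TH457.HT (HeadProg DetProg)

theorem s_det : ∀ (n k : ℕ) (Λ : Type) (P : DetProg Λ n k), ∃ H : HeadProg Λ n k,
    Fintype.card H.Q = Fintype.card P.Q ∧
    (∀ (T : ℕ) (x : Fin n → Λ), P.Answers T x true → H.AcceptsIn T x) ∧
    (∀ (x : Fin n → Λ) (T : ℕ), P.Answers T x false → ¬ H.Accepts x) := by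
  intro n k Λ P
  let H : HeadProg Λ n k :=
    { Q := P.Q
      init := fun q p => (q, p) = P.start
      acc := fun q p => P.out q p = some true
      next := fun q p l q' p' => P.out q p = none ∧ (q', p') = P.move q p l
      slow := by
        rintro q p l q' p' ⟨-, h⟩ i
        have h2 : p' = (P.move q p l).2 := congrArg Prod.snd h
        rw [h2]
        exact P.slow q p l i }
  refine ⟨H, rfl, ?_, ?_⟩
  · rintro T x ⟨t, ht, hout, hnone⟩
    refine ⟨t, ht, fun i => (P.step x)^[i] P.start, rfl, hout, fun i hi => ?_⟩
    refine ⟨hnone i hi, ?_⟩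
    change ((P.step x)^[i + 1] P.start) = _
    rw [Function.iterate_succ_apply']
    rfl
  · rintro x T ⟨t', -, hf, hn⟩ ⟨T1, t, -, c, h0, hacc, hstep⟩
    have hc : ∀ i, i ≤ t → c i = (P.step x)^[i] P.start := by
      intro i
      induction i with
      | zero => intro _; exact h0
      | succ i ih =>
        intro hi
        rw [Function.iterate_succ_apply', ← ih (by omega)]
        exact (hstep i (by omega)).2
    have hacc' : P.out (c t).1 (c t).2 = some true := hacc
    rcases lt_trichotomy t t' with h | h | h
    · have h1 := hn t h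
      rw [← hc t le_rfl, hacc'] at h1
      cases h1
    · rw [← h, ← hc t le_rfl, hacc'] at hf
      cases hf
    · have h1 : P.out (c t').1 (c t').2 = none := (hstep t' h).1
      rw [hc t' h.le, hf] at h1
      cases h1

end Pool.Agent.R572.SH
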