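import Pool.Agent.R572.SH.Stm

set_option autoImplicit false

open Finset

namespace Pool.Agent.R572.SH

open Pool.Agent.TH457.HT (HeadProg DetProg)

theorem enc_sound (m : ℕ) (σ : Fin m → Fin m → Fin 3) :
    ¬ ∃ i j, enc σ (.inl i) j = true ∧ enc σ (.inr j) i = true := by
  rintro ⟨i, j, h1, h2⟩
  have h3 : σ i j = 1 := of_decide_eq_true h1
  have h4 : σ i j = 2 := of_decide_eq_true h2
  rw [h3] at h4
  exact absurd h4 (by decide)

theorem gen_dev (hcore : S_core) (hmach : S_mach) (hgraph : S_graph) (hnum : S_num) : S_gen := by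
  intro N k T S P E hk hS hE hacc hsound
  by_contra hcon
  push Not at hcon
  have hN : 0 < N := by
    rcases Nat.eq_zero_or_pos N with h | h
    · subst h; simp at hcon
    · exact h
  have hne : ∃ σ₀, σ₀ ∉ E := by
    by_contra hcon'
    push Not at hcon'
    have h1 : E = univ := Finset.eq_univ_of_forall hcon'
    rw [h1, Finset.card_univ] at hE
    have h2 : Fintype.card (Fin (N / 3) → Fin (N / 3) → Fin 3) = 3 ^ (N / 3 * (N / 3)) := by
      simp [pow_mul]
    rw [h2] at hE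
    have h3 : 0 < 3 ^ (N / 3 * (N / 3)) := by positivity
    omega
  obtain ⟨σ₀, hσ₀⟩ := hne
  have hq : 1 ≤ Fintype.card P.Q := by
    obtain ⟨t, _, c, _⟩ := hacc σ₀ hσ₀
    exact Fintype.card_pos_iff.mpr ⟨(c 0).1⟩
  have hc : Fintype.card P.Cfg ≤ 2 ^ S := by
    refine le_trans (le_of_eq ?_) hS
    simp [HeadProg.Cfg]
  obtain ⟨V, d, h1, h2, h3, h4, h5⟩ := hnum N k T S (Fintype.card P.Cfg) (Fintype.card P.Q) hk hq
    hS hc hcon
  obtain ⟨A, hA1, hA2⟩ := hmach N (N / 3) k T P hN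
  refine hcore (N / 3) (T / N + 1) k V d P.Cfg A E ?_ ?_ hE h1 h2 h3 h4 h5
  · intro y β hT hij
    have g := hgraph N (N / 3) y (by omega)
    exact hsound _ g.1 (fun h => (g.2.mp h) hij) (hA2 y β hT)
  · intro σ hσ
    exact hA1 _ (hacc σ hσ)

theorem thmB_dev (hgen : S_gen) (hdet : S_det) (hmarkov : S_markov) (hgraph : S_graph) :
    S_thmB := by
  intro N k T S Ω _ p P hp hp1 hk hS h
  classical
  have hsig : ∀ σ : Fin (N / 3) → Fin (N / 3) → Fin 3, AllShortest (wt N (enc σ)) := fun σ =>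
    (hgraph N (N / 3) (enc σ) (by omega)).2.mpr (enc_sound _ σ)
  choose τ hτ1 hτ2 using fun σ : (Fin (N / 3) → Fin (N / 3) → Fin 3) =>
    h (wt N (enc σ)) (hgraph N (N / 3) (enc σ) (by omega)).1
  obtain ⟨ω, hω⟩ := hmarkov Ω (Fin (N / 3) → Fin (N / 3) → Fin 3) p T hp hp1 τ hτ2
  obtain ⟨H, hH1, hH2, hH3⟩ := hdet (N * N) k ℕ (P ω)
  refine hgen N k (64 * T) S H (univ.filter (fun σ => 64 * T < τ σ ω)) hk
    (by rw [hH1]; exact hS ω) ?_ ?_ ?_
  · refine hω.trans (le_of_eq ?_)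
    simp [pow_mul]
  · intro σ hσ
    simp only [mem_filter, mem_univ, true_and, not_lt] at hσ
    apply hH2
    have h1 := hτ1 σ ω
    rw [decide_eq_true (hsig σ)] at h1
    obtain ⟨t, ht, h2⟩ := h1
    exact ⟨t, ht.trans hσ, h2⟩
  · intro w hw hnot
    obtain ⟨τ', h1, _⟩ := h w hw
    have h2 := h1 ω
    rw [decide_eq_false hnot] at h2
    exact hH3 _ _ h2

end Pool.Agent.R572.SH
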