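import Pool.Agent.R572.SH.Defs

/-! The graphs. -/

set_option autoImplicit false

open Finset

namespace Pool.Agent.R572.SH

namespace GraphAux

theorem wt_self {m : ℕ} (N : ℕ) (y : Cont m) (u : Fin N) : wt N y u u = 0 := by
  unfold wt
  simp

theorem wt_bounds {m : ℕ} (N : ℕ) (y : Cont m) (u v : Fin N) (h : u ≠ v) :
    1 ≤ wt N y u v ∧ wt N y u v ≤ 3 := by
  unfold wt
  rw [if_neg h]
  split_ifs <;> omega

theorem wt_three {m : ℕ} (N : ℕ) (y : Cont m) (u v : Fin N) (h : wt N y u v = 3) :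
    (u : ℕ) < m ∧ (v : ℕ) = 2 * m + u := by
  unfold wt at h
  split_ifs at h with h1 h2 h3 h4 h5 h6
  all_goals omega

theorem wt_one {m : ℕ} (N : ℕ) (y : Cont m) (u v : Fin N) (h : wt N y u v = 1) :
    (∃ h : (u : ℕ) < m ∧ m ≤ (v : ℕ) ∧ (v : ℕ) < 2 * m,
      y (.inl ⟨u, h.1⟩) ⟨v - m, by omega⟩ = true) ∨
    (∃ h : m ≤ (u : ℕ) ∧ (u : ℕ) < 2 * m ∧ 2 * m ≤ (v : ℕ) ∧ (v : ℕ) < 3 * m,
      y (.inr ⟨u - m, by omega⟩) ⟨v - 2 * m, by omega⟩ = true) := by
  unfold wt at h
  split_ifs at h with h1 h2 h3 h4 h5 h6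
  all_goals first | omega | exact Or.inl ⟨h2, h3⟩ | exact Or.inr ⟨h4, h5⟩

theorem all_iff {N : ℕ} (w : Fin N → Fin N → ℕ) :
    AllShortest w ↔ ∀ u a v, w u v ≤ w u a + w a v := by
  constructor
  · intro h u a v
    exact h u v [a]
  · intro h u v l
    induction l generalizing u with
    | nil => exact le_rfl
    | cons a l ih => exact (h u a v).trans (Nat.add_le_add_left (ih a) _)

end GraphAux

open GraphAux in
theorem s_graph : ∀ (N m : ℕ) (y : Cont m), 3 * m ≤ N →
    IsWeights (wt N y) ∧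
      (AllShortest (wt N y) ↔ ¬ ∃ i j, y (.inl i) j = true ∧ y (.inr j) i = true) := by
  intro N m y hN
  refine ⟨⟨wt_self N y, wt_bounds N y⟩, ?_⟩
  rw [all_iff]
  constructor
  · rintro h ⟨i, j, h1, h2⟩
    have hi := i.2
    have hj := j.2
    have h3 := h ⟨i, by omega⟩ ⟨m + j, by omega⟩ ⟨2 * m + i, by omega⟩
    have e1 : wt N y ⟨i, by omega⟩ ⟨2 * m + i, by omega⟩ = 3 := by
      unfold wt
      rw [if_neg (by simp only [Fin.mk.injEq]; omega), dif_neg (by simp only; omega),
        dif_neg (by simp only; omega), if_pos ⟨hi, rfl⟩]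
    have e2 : wt N y ⟨i, by omega⟩ ⟨m + j, by omega⟩ = 1 := by
      unfold wt
      rw [if_neg (by simp only [Fin.mk.injEq]; omega), dif_pos (by simp only; omega), if_pos]
      have e3 : (⟨m + (j : ℕ) - m, by omega⟩ : Fin m) = j := Fin.ext (by simp)
      simp only [Fin.eta, e3]
      exact h1
    have e4 : wt N y ⟨m + j, by omega⟩ ⟨2 * m + i, by omega⟩ = 1 := by
      unfold wt
      rw [if_neg (by simp only [Fin.mk.injEq]; omega), dif_neg (by simp only; omega),
        dif_pos (by simp only; omega), if_pos]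
      have e5 : (⟨m + (j : ℕ) - m, by omega⟩ : Fin m) = j := Fin.ext (by simp)
      have e6 : (⟨2 * m + (i : ℕ) - 2 * m, by omega⟩ : Fin m) = i := Fin.ext (by simp)
      simp only [e5, e6]
      exact h2
    rw [e1, e2, e4] at h3
    omega
  · intro h u a v
    by_contra hc
    push Not at hc
    by_cases hua : u = a
    · subst hua
      omega
    by_cases hav : a = v
    · subst hav
      omega
    by_cases huv : u = v
    · subst huv
      rw [wt_self] at hc
      omega
    have b1 := wt_bounds N y u a hua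
    have b2 := wt_bounds N y a v hav
    have b3 := wt_bounds N y u v huv
    have c1 : wt N y u v = 3 := by omega
    have c2 : wt N y u a = 1 := by omega
    have c3 : wt N y a v = 1 := by omega
    obtain ⟨d1, d2⟩ := wt_three N y u v c1
    rcases wt_one N y u a c2 with ⟨d3, d4⟩ | ⟨d3, _⟩
    · rcases wt_one N y a v c3 with ⟨d5, _⟩ | ⟨d5, d6⟩
      · omega
      · refine h ⟨⟨u, d3.1⟩, ⟨a - m, by omega⟩, d4, ?_⟩
        have e7 : (⟨(v : ℕ) - 2 * m, by omega⟩ : Fin m) = ⟨u, d3.1⟩ := Fin.ext (by simp only; omega)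
        rw [e7] at d6
        exact d6
    · omega

end Pool.Agent.R572.SH
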