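import Pool.Agent.R572.SH.Defs

/-!
# Mixing two contents of the zones along one sequence of windows
-/

set_option autoImplicit false

open Finset

namespace Pool.Agent.R572.SH

theorem s_hyb : ∀ (m k R : ℕ) (C : Type) (A : Sys m k C) (x : Cont m) (β : ℕ → C),
    A.Tr R x β → ∀ (z₁ z₂ : Zone m) (w₁ w₂ : Fin m → Bool),
    (∀ s < R, z₁ ∈ A.reg (β s) → z₂ ∉ A.reg (β s)) →
    (∀ s < R, z₁ ∈ A.reg (β s) → A.G (Function.update x z₁ w₁) (β s) (β (s + 1))) →
    (∀ s < R, z₂ ∈ A.reg (β s) → A.G (Function.update x z₂ w₂) (β s) (β (s + 1))) →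
    A.Tr R (Function.update (Function.update x z₁ w₁) z₂ w₂) β := by
  intro m k R C A x β h z₁ z₂ w₁ w₂ hd h₁ h₂
  refine ⟨h.1, h.2.1, fun s hs => ?_⟩
  by_cases hz₁ : z₁ ∈ A.reg (β s)
  · have hz₂ : z₂ ∉ A.reg (β s) := hd s hs hz₁
    refine A.loc _ _ _ _ (fun z hz => ?_) (h₁ s hs hz₁)
    have hne : z ≠ z₂ := fun he => hz₂ (he ▸ hz)
    rw [Function.update_of_ne hne]
  · by_cases hz₂ : z₂ ∈ A.reg (β s)
    · refine A.loc _ _ _ _ (fun z hz => ?_) (h₂ s hs hz₂)
      have hne : z ≠ z₁ := fun he => hz₁ (he ▸ hz)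
      by_cases hz2 : z = z₂
      · subst hz2
        rw [Function.update_self, Function.update_self]
      · rw [Function.update_of_ne hz2, Function.update_of_ne hz2, Function.update_of_ne hne]
    · refine A.loc _ _ _ _ (fun z hz => ?_) (h.2.2 s hs)
      have hne₁ : z ≠ z₁ := fun he => hz₁ (he ▸ hz)
      have hne₂ : z ≠ z₂ := fun he => hz₂ (he ▸ hz)
      rw [Function.update_of_ne hne₂, Function.update_of_ne hne₁]

end Pool.Agent.R572.SH
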