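import Pool.Agent.R572.SH.Defs
import Pool.Agent.TH457.HT.Path

/-!
# The machines as systems of windows
-/

set_option autoImplicit false

open Finset

namespace Pool.Agent.R572.SH

open Pool.Agent.TH457.HT (HeadProg)

theorem mach_wt_congr {m : ℕ} (N : ℕ) (y y' : Cont m) (u v : Fin N)
    (h : ∀ z : Zone m, rowOf z = (u : ℕ) → y z = y' z) : wt N y u v = wt N y' u v := by
  unfold wt
  split_ifs with h1 h2 h3 h4 h5 h6 h7 h8 <;> first
    | rfl
    | (exfalso
       have e := h (.inl ⟨u, by omega⟩) rfl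
       simp_all)
    | (exfalso
       have e := h (.inr ⟨u - m, by omega⟩) (by change m + (u - m) = (u : ℕ); omega)
       simp_all)

theorem mach_rowOf_inj {m : ℕ} : Function.Injective (rowOf : Zone m → ℕ) := by
  rintro (i | i) (j | j) h
  · exact congrArg _ (Fin.ext h)
  · exfalso
    have h1 : (i : ℕ) = m + j := h
    omega
  · exfalso
    have h1 : m + (i : ℕ) = j := h
    omega
  · have h1 : m + (i : ℕ) = m + j := h
    exact congrArg _ (Fin.ext (by omega))

theorem mach_card (N m k : ℕ) (p : Fin k → Fin (N * N)) :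
    ((univ : Finset (Zone m)).filter (fun z => ∃ h, rowOf z ≤ (p h : ℕ) / N + 1 ∧
      (p h : ℕ) / N ≤ rowOf z + 1)).card ≤ 3 * k := by
  classical
  have hsub : ((univ : Finset (Zone m)).filter (fun z => ∃ h, rowOf z ≤ (p h : ℕ) / N + 1 ∧
      (p h : ℕ) / N ≤ rowOf z + 1)).image rowOf ⊆ (univ : Finset (Fin k)).biUnion (fun h =>
        Finset.Icc ((p h : ℕ) / N - 1) ((p h : ℕ) / N + 1)) := by
    intro u hu
    obtain ⟨z, hz, rfl⟩ := mem_image.1 hu
    obtain ⟨h, h1, h2⟩ := (mem_filter.1 hz).2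
    refine mem_biUnion.2 ⟨h, mem_univ _, Finset.mem_Icc.2 ⟨?_, h1⟩⟩
    exact Nat.sub_le_iff_le_add.2 h2
  have hcard : ((univ : Finset (Fin k)).biUnion (fun h =>
        Finset.Icc ((p h : ℕ) / N - 1) ((p h : ℕ) / N + 1))).card ≤ 3 * k := by
    refine card_biUnion_le.trans ?_
    refine (Finset.sum_le_sum (g := fun _ => 3) ?_).trans ?_
    · intro h _
      rw [Nat.card_Icc]
      omega
    · simp [mul_comm]
  have h3 := (card_le_card hsub).trans hcard
  rwa [card_image_of_injective _ mach_rowOf_inj] at h3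

theorem mach_loc {N m k : ℕ} (P : HeadProg ℕ (N * N) k) (hN : 0 < N) (x x' : Cont m)
    (r : ℕ) (hr : r ≤ N) (f : ℕ → P.Cfg)
    (hx : ∀ z : Zone m, (∃ h, rowOf z ≤ ((f 0).2 h : ℕ) / N + 1 ∧
      ((f 0).2 h : ℕ) / N ≤ rowOf z + 1) → x z = x' z)
    (hs : ∀ i < r, P.Step (rowWord (wt N x)) (f i) (f (i + 1))) :
    ∀ i < r, P.Step (rowWord (wt N x')) (f i) (f (i + 1)) := by
  intro i hi
  have h1 := hs i hi
  unfold HeadProg.Step at h1 ⊢
  have e : (fun h => rowWord (wt N x') ((f i).2 h)) = fun h => rowWord (wt N x) ((f i).2 h) := by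
    funext h
    symm
    refine mach_wt_congr N x x' _ _ fun z hz => hx z ⟨h, ?_⟩
    have h2 := Pool.Agent.TH457.HT.slow_path P _ r f hs 0 h i (by omega)
    rw [Nat.zero_add] at h2
    have h3 : rowOf z = ((f i).2 h : ℕ) / N := by
      rw [hz, Fin.coe_divNat]
    rw [h3]
    generalize ((f i).2 h : ℕ) = u at h2 ⊢
    generalize ((f 0).2 h : ℕ) = v at h2 ⊢
    have e1 : u / N ≤ (v + N) / N := Nat.div_le_div_right (by omega)
    have e2 : v / N ≤ (u + N) / N := Nat.div_le_div_right (by omega)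
    rw [Nat.add_div_right _ hN] at e1 e2
    exact ⟨e1, e2⟩
  rw [e]
  exact h1

/-- The system of the windows of a program. -/
def machSys (N m k : ℕ) (P : HeadProg ℕ (N * N) k) (hN : 0 < N) : Sys m k P.Cfg where
  G y b b' := ∃ r ≤ N, ∃ f : ℕ → P.Cfg, f 0 = b ∧ f r = b' ∧
    ∀ i < r, P.Step (rowWord (wt N y)) (f i) (f (i + 1))
  init c := P.init c.1 c.2
  acc c := P.acc c.1 c.2
  reg c := (univ : Finset (Zone m)).filter (fun z => ∃ h, rowOf z ≤ (c.2 h : ℕ) / N + 1 ∧
      (c.2 h : ℕ) / N ≤ rowOf z + 1)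
  reg_card c := mach_card N m k c.2
  loc := by
    rintro x x' c c' hx ⟨r, hr, f, h0, h1, hs⟩
    refine ⟨r, hr, f, h0, h1, mach_loc P hN x x' r hr f (fun z hz => hx z ?_) hs⟩
    rw [h0] at hz
    exact mem_filter.2 ⟨mem_univ _, hz⟩

/-- The machines. -/
theorem s_mach : ∀ (N m k T : ℕ) (P : HeadProg ℕ (N * N) k), 0 < N →
    ∃ A : Sys m k P.Cfg,
      (∀ y : Cont m, P.AcceptsIn T (rowWord (wt N y)) → ∃ β, A.Tr (T / N + 1) y β) ∧
      (∀ (y : Cont m) (β : ℕ → P.Cfg), A.Tr (T / N + 1) y β →
        P.Accepts (rowWord (wt N y))) := by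
  intro N m k T P hN
  refine ⟨machSys N m k P hN, ?_, ?_⟩
  · rintro y ⟨te, hte, c, hinit, hacc, hs⟩
    refine ⟨fun s => c (min (s * N) te), ?_, ?_, ?_⟩
    · change P.init (c (min (0 * N) te)).1 (c (min (0 * N) te)).2
      rw [Nat.zero_mul, Nat.zero_min]
      exact hinit
    · change P.acc (c (min ((T / N + 1) * N) te)).1 (c (min ((T / N + 1) * N) te)).2
      have h1 : te ≤ (T / N + 1) * N := by
        have h2 := Nat.div_add_mod T N
        have h3 := Nat.mod_lt T hN
        calc te ≤ T := hte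
          _ = N * (T / N) + T % N := h2.symm
          _ ≤ N * (T / N) + N := by omega
          _ = (T / N + 1) * N := by ring
      rw [min_eq_right h1]
      exact hacc
    · intro s _
      have hmul : (s + 1) * N = s * N + N := by ring
      refine ⟨min ((s + 1) * N) te - min (s * N) te, ?_, fun i => c (min (s * N) te + i), ?_, ?_,
        ?_⟩
      · rw [hmul]
        omega
      · change c (min (s * N) te + 0) = c (min (s * N) te)
        rw [Nat.add_zero]
      · change c (min (s * N) te + (min ((s + 1) * N) te - min (s * N) te)) =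
          c (min ((s + 1) * N) te)
        congr 1
        rw [hmul]
        omega
      · intro i hi
        refine hs (min (s * N) te + i) ?_
        rw [hmul] at hi
        omega
  · rintro y β ⟨hinit, hacc, hG⟩
    have h1 : ∀ s ≤ T / N + 1, Relation.ReflTransGen (P.Step (rowWord (wt N y))) (β 0) (β s) := by
      intro s
      induction s with
      | zero => intro _; exact Relation.ReflTransGen.refl
      | succ s ih =>
        intro hs
        refine (ih (by omega)).trans ?_
        obtain ⟨r, -, f, h0, h2, h3⟩ := hG s (by omega)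
        rw [← h0, ← h2]
        have h4 : ∀ i ≤ r, Relation.ReflTransGen (P.Step (rowWord (wt N y))) (f 0) (f i) := by
          intro i
          induction i with
          | zero => intro _; exact Relation.ReflTransGen.refl
          | succ i ih2 => intro hi; exact (ih2 (by omega)).tail (h3 i (by omega))
        exact h4 r le_rfl
    obtain ⟨t, f, h0, ht, hs⟩ := Pool.Agent.TH457.HT.path_of_rtg P _ _ _ (h1 _ le_rfl)
    refine ⟨t, t, le_rfl, f, ?_, ?_, hs⟩
    · rw [h0]
      exact hinit
    · rw [ht]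
      exact hacc

end Pool.Agent.R572.SH
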