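import Pool.Agent.R572.SH.Defs

/-!
Project SH (MP_885423_lc): the Markov inequality.
-/

set_option autoImplicit false

open Finset

namespace Pool.Agent.R572.SH

theorem s_markov : ∀ (Ω X : Type) [Fintype Ω] [Fintype X] (p : Ω → ℝ) (T : ℕ),
    (∀ ω, 0 ≤ p ω) → ∑ ω, p ω = 1 → ∀ τ : X → Ω → ℕ,
    (∀ x, ∑ ω, p ω * (τ x ω : ℝ) ≤ (T : ℝ)) →
    ∃ ω, 64 * ((univ : Finset X).filter (fun x => 64 * T < τ x ω)).card ≤ Fintype.card X := by
  intro Ω X _ _ p T hp h1 τ hτ
  by_contra hcon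
  push Not at hcon
  have key : ∀ ω, T * Fintype.card X + 1 ≤ ∑ x, τ x ω := by
    intro ω
    have h2 := hcon ω
    set F : Finset X := (univ : Finset X).filter (fun x => 64 * T < τ x ω) with hF
    have h3 : F.card * (64 * T + 1) ≤ ∑ x ∈ F, τ x ω := by
      have := Finset.card_nsmul_le_sum F (fun x => τ x ω) (64 * T + 1) (by
        intro x hx
        rw [hF, Finset.mem_filter] at hx
        exact hx.2)
      simpa [smul_eq_mul] using this
    have h4 : ∑ x ∈ F, τ x ω ≤ ∑ x, τ x ω :=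
      Finset.sum_le_sum_of_subset (Finset.subset_univ F)
    have h5 : T * Fintype.card X ≤ T * (64 * F.card) := Nat.mul_le_mul_left _ h2.le
    have h6 : 1 ≤ F.card := by omega
    nlinarith
  have h2 : ∑ x : X, ∑ ω, p ω * (τ x ω : ℝ) ≤ T * Fintype.card X := by
    calc ∑ x : X, ∑ ω, p ω * (τ x ω : ℝ) ≤ ∑ _x : X, (T : ℝ) :=
          Finset.sum_le_sum fun x _ => hτ x
      _ = T * Fintype.card X := by
          rw [Finset.sum_const, Finset.card_univ, nsmul_eq_mul]
          ring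
  have h3 : (T : ℝ) * Fintype.card X + 1 ≤ ∑ x : X, ∑ ω, p ω * (τ x ω : ℝ) := by
    rw [Finset.sum_comm]
    calc (T : ℝ) * Fintype.card X + 1 = ∑ ω, p ω * ((T : ℝ) * Fintype.card X + 1) := by
          rw [← Finset.sum_mul, h1, one_mul]
      _ ≤ ∑ ω, ∑ x : X, p ω * (τ x ω : ℝ) := by
          apply Finset.sum_le_sum
          intro ω _
          rw [← Finset.mul_sum]
          apply mul_le_mul_of_nonneg_left _ (hp ω)
          exact_mod_cast key ω
  linarith

end Pool.Agent.R572.SH
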