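import Mathlib
import Pool.Agent.R572.SH.Defs

/-!
Project SLOWHEADS-APSP: piece s_num.
-/

set_option autoImplicit false

namespace Pool.Agent.R572.SH

theorem s_num : ∀ (N k T S c q : ℕ), 1 ≤ k → 1 ≤ q → q * (N * N) ^ k ≤ 2 ^ S → c ≤ 2 ^ S →
    2 * 10 ^ 5 * (k * (S + 1) * (T + N)) < N ^ 3 →
    ∃ V d : ℕ, 0 < N / 3 ∧ 36 * k * (T / N + 1) ≤ (N / 3) * (V + 1) ∧
      32 * ((T / N + 1) * c ^ 2 + 1) ^ V ≤ 2 ^ d ∧ 24 * d ≤ N / 3 ∧
      108 * k ^ 2 * (T / N + 1) ≤ (N / 3) ^ 2 := by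
  intro N k T S c q hk hq hS hc hN
  obtain ⟨K, hK⟩ : ∃ K, K = k * (S + 1) := ⟨_, rfl⟩
  obtain ⟨R, hR⟩ : ∃ R, R = T / N + 1 := ⟨_, rfl⟩
  obtain ⟨m, hm⟩ : ∃ m, m = N / 3 := ⟨_, rfl⟩
  rw [← hK] at hN
  rw [← hR, ← hm]
  have hK1 : 1 ≤ K := by
    rw [hK]
    exact Nat.mul_pos hk (Nat.succ_pos _)
  have hN0 : 0 < N := by
    rcases Nat.eq_zero_or_pos N with h | h
    · subst h
      simp at hN
    · exact h
  -- N ^ 2 > 200000
  have hN2 : 200000 < N * N := by
    have h1 : 200000 * N < N * N * N := by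
      calc 200000 * N ≤ 2 * 10 ^ 5 * (K * (T + N)) := by
            have : N ≤ K * (T + N) := by
              calc N = 1 * N := (one_mul _).symm
                _ ≤ K * (T + N) := Nat.mul_le_mul hK1 (Nat.le_add_left _ _)
            calc 200000 * N ≤ 200000 * (K * (T + N)) := Nat.mul_le_mul_left _ this
              _ = _ := by norm_num
        _ < N ^ 3 := hN
        _ = N * N * N := by ring
    exact Nat.lt_of_mul_lt_mul_right h1
  have hN448 : 448 ≤ N := by
    by_contra hcon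
    have : N ≤ 447 := by omega
    have : N * N ≤ 447 * 447 := Nat.mul_le_mul this this
    omega
  have hm149 : 149 ≤ m := by omega
  have hm0 : 0 < m := by omega
  have hNm : N ≤ 3 * m + 2 := by omega
  have hNm2 : N * N ≤ (3 * m + 2) * (3 * m + 2) := Nat.mul_le_mul hNm hNm
  have hRN : R * N ≤ T + N := by
    rw [hR, add_mul, one_mul]
    exact Nat.add_le_add_right (Nat.div_mul_le_self T N) N
  have hKR : 200000 * (K * R) < N * N := by
    have h1 : 200000 * (K * R) * N < N * N * N := by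
      calc 200000 * (K * R) * N = 200000 * (K * (R * N)) := by ring
        _ ≤ 200000 * (K * (T + N)) := Nat.mul_le_mul_left _ (Nat.mul_le_mul_left _ hRN)
        _ = 2 * 10 ^ 5 * (K * (T + N)) := by norm_num
        _ < N ^ 3 := hN
        _ = N * N * N := by ring
    exact Nat.lt_of_mul_lt_mul_right h1
  have hS1 : (N * N) ^ k ≤ 2 ^ S := le_trans (Nat.le_mul_of_pos_left _ hq) hS
  have h17 : 17 * k ≤ S := by
    have h1 : 2 ^ (17 * k) ≤ 2 ^ S := by
      calc 2 ^ (17 * k) = (2 ^ 17) ^ k := by rw [pow_mul]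
        _ ≤ (N * N) ^ k := by
            apply Nat.pow_le_pow_left
            have : 2 ^ 17 = 131072 := by norm_num
            omega
        _ ≤ 2 ^ S := hS1
    exact (Nat.pow_le_pow_iff_right (by norm_num)).1 h1
  have hNN : N * N ≤ 2 ^ S := by
    refine le_trans ?_ hS1
    calc N * N = (N * N) ^ 1 := (pow_one _).symm
      _ ≤ (N * N) ^ k := Nat.pow_le_pow_right (by positivity) hk
  have hRS : R ≤ 2 ^ S := by
    have h1 : R ≤ K * R := Nat.le_mul_of_pos_left _ hK1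
    have h2 : K * R ≤ 200000 * (K * R) := Nat.le_mul_of_pos_left _ (by norm_num)
    exact h1.trans (h2.trans (hKR.le.trans hNN))
  have hV1 : m * (36 * k * R / m) ≤ 36 * k * R := Nat.mul_div_le _ _
  have hV2 : 36 * k * R < m * (36 * k * R / m + 1) := Nat.lt_mul_div_succ _ hm0
  obtain ⟨V, hV⟩ : ∃ V, V = 36 * k * R / m := ⟨_, rfl⟩
  rw [← hV] at hV1 hV2
  refine ⟨V, (3 * S + 1) * V + 5, hm0, hV2.le, ?_, ?_, ?_⟩
  · have h1 : R * c ^ 2 + 1 ≤ 2 ^ (3 * S + 1) := by
      have h2 : R * c ^ 2 ≤ 2 ^ (3 * S) := by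
        calc R * c ^ 2 ≤ 2 ^ S * (2 ^ S) ^ 2 :=
              Nat.mul_le_mul hRS (Nat.pow_le_pow_left hc 2)
          _ = 2 ^ (3 * S) := by
              rw [← pow_mul, ← pow_add]
              congr 1
              ring
      have h3 : 1 ≤ 2 ^ (3 * S) := Nat.one_le_two_pow
      have h4 : 2 ^ (3 * S + 1) = 2 ^ (3 * S) * 2 := pow_succ 2 (3 * S)
      rw [h4]
      linarith
    calc 32 * (R * c ^ 2 + 1) ^ V ≤ 32 * (2 ^ (3 * S + 1)) ^ V :=
          Nat.mul_le_mul_left _ (Nat.pow_le_pow_left h1 V)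
      _ = 2 ^ ((3 * S + 1) * V + 5) := by
          rw [← pow_mul, pow_add 2 ((3 * S + 1) * V) 5]
          ring
  · have h1 : 24 * ((3 * S + 1) * V + 5) * m ≤ m * m := by
      have h2 : 24 * ((3 * S + 1) * V + 5) * m = 24 * (3 * S + 1) * (m * V) + 120 * m := by ring
      have h3 : 24 * (3 * S + 1) * (m * V) ≤ 24 * (3 * S + 1) * (36 * k * R) :=
        Nat.mul_le_mul_left _ hV1
      have h4 : 24 * (3 * S + 1) * (36 * k * R) ≤ 2592 * (K * R) := by
        rw [hK]
        calc 24 * (3 * S + 1) * (36 * k * R) = 864 * (k * R) * (3 * S + 1) := by ring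
          _ ≤ 864 * (k * R) * (3 * S + 3) := Nat.mul_le_mul_left _ (by omega)
          _ = 2592 * (k * (S + 1) * R) := by ring
      rw [h2]
      nlinarith
    exact Nat.le_of_mul_le_mul_right h1 hm0
  · have h1 : 108 * k ^ 2 * R ≤ 108 * (K * R) := by
      rw [hK]
      calc 108 * k ^ 2 * R = 108 * (k * R) * k := by ring
        _ ≤ 108 * (k * R) * (S + 1) := Nat.mul_le_mul_left _ (by omega)
        _ = 108 * (k * (S + 1) * R) := by ring
    refine h1.trans ?_
    nlinarith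

end Pool.Agent.R572.SH
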