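import Pool.Agent.R572.SH.Defs

/-! S_pairs (helper608 for helper572). -/

set_option autoImplicit false

open Finset

namespace Pool.Agent.R572.SH

theorem s_pairs : ∀ (m R k d : ℕ) (Z : Finset (Fin m × Fin m)) (A B : Finset (Zone m))
    (F : Zone m → Finset (Fin m)) (reg : ℕ → Finset (Zone m)),
    (∀ z, z ∉ A → z ∉ B → (F z).card ≤ d) → (∀ s, (reg s).card ≤ 3 * k) →
    (∀ p ∈ Z, .inl p.1 ∈ A ∨ .inr p.2 ∈ A ∨ .inl p.1 ∈ B ∨ .inr p.2 ∈ B ∨
      (.inl p.1 ∉ A ∧ .inl p.1 ∉ B ∧ p.2 ∈ F (.inl p.1)) ∨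
      (.inr p.2 ∉ A ∧ .inr p.2 ∉ B ∧ p.1 ∈ F (.inr p.2)) ∨
      ∃ s < R, .inl p.1 ∈ reg s ∧ .inr p.2 ∈ reg s) →
    Z.card ≤ m * A.card + m * B.card + 2 * m * d + 9 * k ^ 2 * R := by
  classical
  intro m R k d Z A B F reg hF hreg hZ
  let c : Finset (Zone m) → Finset (Fin m × Fin m) := fun S => S.biUnion fun z => univ.image (cell z)
  let W : Finset (Fin m × Fin m) := (univ.filter fun z : Zone m => z ∉ A ∧ z ∉ B).biUnion
    fun z => (F z).image (cell z)
  let P : ℕ → Finset (Fin m × Fin m) := fun s =>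
    univ.filter fun p => Sum.inl p.1 ∈ reg s ∧ Sum.inr p.2 ∈ reg s
  let Y : Finset (Fin m × Fin m) := (range R).biUnion P
  have hc : ∀ S, (c S).card ≤ m * S.card := by
    intro S
    rw [mul_comm]
    refine card_biUnion_le_card_mul _ _ _ fun z _ => ?_
    exact card_image_le.trans (by simp)
  have hW : W.card ≤ 2 * m * d := by
    refine (card_biUnion_le_card_mul _ _ d fun z hz => ?_).trans ?_
    · have h := (mem_filter.1 hz).2
      exact card_image_le.trans (hF z h.1 h.2)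
    · refine Nat.mul_le_mul_right _ ?_
      refine (card_filter_le _ _).trans ?_
      rw [card_univ, Fintype.card_sum, Fintype.card_fin]
      omega
  have hP : ∀ s, (P s).card ≤ 9 * k ^ 2 := by
    intro s
    have h1 : (P s).card ≤ (reg s ×ˢ reg s).card := by
      refine card_le_card_of_injOn (fun p => (Sum.inl p.1, Sum.inr p.2)) ?_ ?_
      · intro p hp
        have h := (mem_filter.1 (mem_coe.1 hp)).2
        exact mem_coe.2 (mem_product.2 h)
      · intro p _ q _ hpq
        simp only [Prod.mk.injEq, Sum.inl.injEq, Sum.inr.injEq] at hpq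
        exact Prod.ext hpq.1 hpq.2
    rw [card_product] at h1
    refine h1.trans ((Nat.mul_le_mul (hreg s) (hreg s)).trans (le_of_eq (by ring)))
  have hY : Y.card ≤ 9 * k ^ 2 * R := by
    refine (card_biUnion_le_card_mul _ _ _ fun s _ => hP s).trans ?_
    rw [card_range, mul_comm]
  have hsub : Z ⊆ c A ∪ c B ∪ W ∪ Y := by
    intro p hp
    have hinl : cell (Sum.inl p.1) p.2 = p := rfl
    have hinr : cell (Sum.inr p.2) p.1 = p := rfl
    rcases hZ p hp with h | h | h | h | h | h | h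
    · exact mem_union_left _ (mem_union_left _ (mem_union_left _
        (mem_biUnion.2 ⟨_, h, mem_image.2 ⟨p.2, mem_univ _, hinl⟩⟩)))
    · exact mem_union_left _ (mem_union_left _ (mem_union_left _
        (mem_biUnion.2 ⟨_, h, mem_image.2 ⟨p.1, mem_univ _, hinr⟩⟩)))
    · exact mem_union_left _ (mem_union_left _ (mem_union_right _
        (mem_biUnion.2 ⟨_, h, mem_image.2 ⟨p.2, mem_univ _, hinl⟩⟩)))
    · exact mem_union_left _ (mem_union_left _ (mem_union_right _
        (mem_biUnion.2 ⟨_, h, mem_image.2 ⟨p.1, mem_univ _, hinr⟩⟩)))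
    · exact mem_union_left _ (mem_union_right _ (mem_biUnion.2
        ⟨_, mem_filter.2 ⟨mem_univ _, h.1, h.2.1⟩, mem_image.2 ⟨p.2, h.2.2, hinl⟩⟩))
    · exact mem_union_left _ (mem_union_right _ (mem_biUnion.2
        ⟨_, mem_filter.2 ⟨mem_univ _, h.1, h.2.1⟩, mem_image.2 ⟨p.1, h.2.2, hinr⟩⟩))
    · obtain ⟨s, hs, h1, h2⟩ := h
      exact mem_union_right _ (mem_biUnion.2
        ⟨s, mem_range.2 hs, mem_filter.2 ⟨mem_univ _, h1, h2⟩⟩)
  have h1 := card_le_card hsub
  have h2 := card_union_le (c A ∪ c B ∪ W) Y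
  have h3 := card_union_le (c A ∪ c B) W
  have h4 := card_union_le (c A) (c B)
  have h5 := hc A
  have h6 := hc B
  omega

end Pool.Agent.R572.SH
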