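import Pool.Agent.R572.SH.Key
import Pool.Agent.R572.SH.Hyb
import Pool.Agent.R572.SH.Bad
import Pool.Agent.R572.SH.Pairs
import Pool.Agent.R572.SH.Avg
import Pool.Agent.R572.SH.Mach
import Pool.Agent.R572.SH.Graph
import Pool.Agent.R572.SH.Det
import Pool.Agent.R572.SH.Markov
import Pool.Agent.R572.SH.Num
import Pool.Agent.R572.SH.CoreDev
import Pool.Agent.R572.SH.GenDev

/-!
# The two lower bounds for programs with slow heads
-/

set_option autoImplicit false

open Finset

namespace Pool.Agent.R572.SH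

open Pool.Agent.TH457.HT (HeadProg DetProg)

theorem core : S_core :=
  core_dev @s_key @s_hyb @s_bad @s_pairs @s_avg

theorem gen : S_gen := gen_dev core @s_mach @s_graph @s_num

/-- The nondeterministic bound. -/
theorem thmA (N k T S : ℕ) (P : HeadProg ℕ (N * N) k) (hk : 1 ≤ k)
    (hS : Fintype.card P.Q * (N * N) ^ k ≤ 2 ^ S)
    (hacc : ∀ w : Fin N → Fin N → ℕ, IsWeights w → AllShortest w → P.AcceptsIn T (rowWord w))
    (hsound : ∀ w : Fin N → Fin N → ℕ, IsWeights w → ¬ AllShortest w →
      ¬ P.Accepts (rowWord w)) :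
    N ^ 3 ≤ 2 * 10 ^ 5 * (k * (S + 1) * (T + N)) := by
  refine gen N k T S P ∅ hk hS (by simp) ?_ hsound
  intro σ _
  have g := s_graph N (N / 3) (enc σ) (by omega)
  exact hacc _ g.1 (g.2.mpr (enc_sound _ σ))

/-- The bound for zero-error randomized programs. -/
theorem thmB : S_thmB := thmB_dev gen @s_det @s_markov @s_graph

end Pool.Agent.R572.SH
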