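import Pool.Agent.R572.SH.Defs
import Pool.Agent.TH457.HT.Defs
import Pool.Agent.TH457.HT.DetDefs

/-! Statements of the pieces. -/

set_option autoImplicit false

open Finset

namespace Pool.Agent.R572.SH

open Pool.Agent.TH457.HT (HeadProg DetProg)

def S_key : Prop := ∀ (α : Type) [Fintype α] [DecidableEq α] (V : ℕ),
    ((univ : Finset (Finset α)).filter (fun K => K.card ≤ V)).card ≤ (Fintype.card α + 1) ^ V

def S_hyb : Prop := ∀ (m k R : ℕ) (C : Type) (A : Sys m k C) (x : Cont m) (β : ℕ → C),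
    A.Tr R x β → ∀ (z₁ z₂ : Zone m) (w₁ w₂ : Fin m → Bool),
    (∀ s < R, z₁ ∈ A.reg (β s) → z₂ ∉ A.reg (β s)) →
    (∀ s < R, z₁ ∈ A.reg (β s) → A.G (Function.update x z₁ w₁) (β s) (β (s + 1))) →
    (∀ s < R, z₂ ∈ A.reg (β s) → A.G (Function.update x z₂ w₂) (β s) (β (s + 1))) →
    A.Tr R (Function.update (Function.update x z₁ w₁) z₂ w₂) β

def S_bad : Prop := ∀ (m d : ℕ) (K : Type) [Fintype K] [DecidableEq K] (z : Zone m)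
    (key : (Fin m → Fin m → Fin 3) → K) (X : Finset (Fin m → Fin m → Fin 3))
    (Fr : (Fin m → Fin m → Fin 3) → Finset (Fin m)),
    (∀ σ ∈ X, ∀ t ∈ Fr σ, val σ z t = 0) → (∀ σ ∈ X, d ≤ (Fr σ).card) →
    (∀ σ ∈ X, ∀ σ' ∈ X, (∀ z', z' ≠ z → enc σ z' = enc σ' z') → key σ = key σ' → Fr σ = Fr σ') →
    X.card * 2 ^ d ≤ Fintype.card K * 3 ^ (m * m)

def S_pairs : Prop := ∀ (m R k d : ℕ) (Z : Finset (Fin m × Fin m)) (A B : Finset (Zone m))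
    (F : Zone m → Finset (Fin m)) (reg : ℕ → Finset (Zone m)),
    (∀ z, z ∉ A → z ∉ B → (F z).card ≤ d) → (∀ s, (reg s).card ≤ 3 * k) →
    (∀ p ∈ Z, .inl p.1 ∈ A ∨ .inr p.2 ∈ A ∨ .inl p.1 ∈ B ∨ .inr p.2 ∈ B ∨
      (.inl p.1 ∉ A ∧ .inl p.1 ∉ B ∧ p.2 ∈ F (.inl p.1)) ∨
      (.inr p.2 ∉ A ∧ .inr p.2 ∉ B ∧ p.1 ∈ F (.inr p.2)) ∨
      ∃ s < R, .inl p.1 ∈ reg s ∧ .inr p.2 ∈ reg s) →
    Z.card ≤ m * A.card + m * B.card + 2 * m * d + 9 * k ^ 2 * R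

def S_zeros : Prop := ∀ (m : ℕ),
    3 * ∑ σ : Fin m → Fin m → Fin 3,
      ((univ : Finset (Fin m × Fin m)).filter (fun p => σ p.1 p.2 = 0)).card
      = m * m * 3 ^ (m * m)

def S_avg : Prop := ∀ (m R k V d K : ℕ) (E : Finset (Fin m → Fin m → Fin 3))
    (a : (Fin m → Fin m → Fin 3) → ℕ) (B : Zone m → Finset (Fin m → Fin m → Fin 3)),
    (∀ σ ∉ E, ((univ : Finset (Fin m × Fin m)).filter (fun p => σ p.1 p.2 = 0)).card ≤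
      m * a σ + m * ((univ : Finset (Zone m)).filter (fun z => σ ∈ B z)).card + 2 * m * d +
        9 * k ^ 2 * R) →
    (∀ σ ∉ E, (V + 1) * a σ ≤ 3 * k * R) →
    (∀ z, (B z).card * 2 ^ d ≤ K * 3 ^ (m * m)) → 32 * K ≤ 2 ^ d →
    64 * E.card ≤ 3 ^ (m * m) → 0 < m → 36 * k * R ≤ m * (V + 1) → 24 * d ≤ m →
    108 * k ^ 2 * R ≤ m ^ 2 → False

/-- The core. -/
def S_core : Prop := ∀ (m R k V d : ℕ) (C : Type) [Fintype C] (A : Sys m k C)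
    (E : Finset (Fin m → Fin m → Fin 3)),
    (∀ (y : Cont m) (β : ℕ → C), A.Tr R y β →
      ¬ ∃ i j, y (.inl i) j = true ∧ y (.inr j) i = true) →
    (∀ σ ∉ E, ∃ β, A.Tr R (enc σ) β) →
    64 * E.card ≤ 3 ^ (m * m) → 0 < m → 36 * k * R ≤ m * (V + 1) →
    32 * (R * Fintype.card C ^ 2 + 1) ^ V ≤ 2 ^ d → 24 * d ≤ m → 108 * k ^ 2 * R ≤ m ^ 2 → False

/-- The machines. -/
def S_mach : Prop := ∀ (N m k T : ℕ) (P : HeadProg ℕ (N * N) k), 0 < N →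
    ∃ A : Sys m k P.Cfg,
      (∀ y : Cont m, P.AcceptsIn T (rowWord (wt N y)) → ∃ β, A.Tr (T / N + 1) y β) ∧
      (∀ (y : Cont m) (β : ℕ → P.Cfg), A.Tr (T / N + 1) y β → P.Accepts (rowWord (wt N y)))

/-- The graphs. -/
def S_graph : Prop := ∀ (N m : ℕ) (y : Cont m), 3 * m ≤ N →
    IsWeights (wt N y) ∧
      (AllShortest (wt N y) ↔ ¬ ∃ i j, y (.inl i) j = true ∧ y (.inr j) i = true)

/-- The encodings contain no violation. -/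
def S_enc : Prop := ∀ (m : ℕ) (σ : Fin m → Fin m → Fin 3),
    ¬ ∃ i j, enc σ (.inl i) j = true ∧ enc σ (.inr j) i = true

/-- Deterministic programs are nondeterministic programs. -/
def S_det : Prop := ∀ (n k : ℕ) (Λ : Type) (P : DetProg Λ n k), ∃ H : HeadProg Λ n k,
    Fintype.card H.Q = Fintype.card P.Q ∧
    (∀ (T : ℕ) (x : Fin n → Λ), P.Answers T x true → H.AcceptsIn T x) ∧
    (∀ (x : Fin n → Λ) (T : ℕ), P.Answers T x false → ¬ H.Accepts x)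

/-- Markov. -/
def S_markov : Prop := ∀ (Ω X : Type) [Fintype Ω] [Fintype X] (p : Ω → ℝ) (T : ℕ),
    (∀ ω, 0 ≤ p ω) → ∑ ω, p ω = 1 → ∀ τ : X → Ω → ℕ,
    (∀ x, ∑ ω, p ω * (τ x ω : ℝ) ≤ (T : ℝ)) →
    ∃ ω, 64 * ((univ : Finset X).filter (fun x => 64 * T < τ x ω)).card ≤ Fintype.card X

/-- The numbers. -/
def S_num : Prop := ∀ (N k T S c q : ℕ), 1 ≤ k → 1 ≤ q → q * (N * N) ^ k ≤ 2 ^ S → c ≤ 2 ^ S →
    2 * 10 ^ 5 * (k * (S + 1) * (T + N)) < N ^ 3 →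
    ∃ V d : ℕ, 0 < N / 3 ∧ 36 * k * (T / N + 1) ≤ (N / 3) * (V + 1) ∧
      32 * ((T / N + 1) * c ^ 2 + 1) ^ V ≤ 2 ^ d ∧ 24 * d ≤ N / 3 ∧
      108 * k ^ 2 * (T / N + 1) ≤ (N / 3) ^ 2

/-- The general form. -/
def S_gen : Prop := ∀ (N k T S : ℕ) (P : HeadProg ℕ (N * N) k)
    (E : Finset (Fin (N / 3) → Fin (N / 3) → Fin 3)), 1 ≤ k →
    Fintype.card P.Q * (N * N) ^ k ≤ 2 ^ S → 64 * E.card ≤ 3 ^ (N / 3 * (N / 3)) →
    (∀ σ ∉ E, P.AcceptsIn T (rowWord (wt N (enc σ)))) →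
    (∀ w : Fin N → Fin N → ℕ, IsWeights w → ¬ AllShortest w → ¬ P.Accepts (rowWord w)) →
    N ^ 3 ≤ 2 * 10 ^ 5 * (k * (S + 1) * (T + N))

open Classical in
/-- The theorem for zero-error randomized programs. -/
def S_thmB : Prop := ∀ (N k T S : ℕ) (Ω : Type) [Fintype Ω] (p : Ω → ℝ)
    (P : Ω → DetProg ℕ (N * N) k), (∀ ω, 0 ≤ p ω) → ∑ ω, p ω = 1 → 1 ≤ k →
    (∀ ω, Fintype.card (P ω).Q * (N * N) ^ k ≤ 2 ^ S) →
    (∀ w : Fin N → Fin N → ℕ, IsWeights w →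
      ∃ τ : Ω → ℕ, (∀ ω, (P ω).Answers (τ ω) (rowWord w) (decide (AllShortest w))) ∧
        ∑ ω, p ω * τ ω ≤ T) →
    N ^ 3 ≤ 2 * 10 ^ 5 * (k * (S + 1) * (64 * T + N))

end Pool.Agent.R572.SH
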