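import Pool.Agent.R572.SH.Defs

/-! The number of zeros. -/

set_option autoImplicit false

open Finset

namespace Pool.Agent.R572.SH

theorem zeros_one {m : ℕ} (i j : Fin m) :
    3 * ((univ : Finset (Fin m → Fin m → Fin 3)).filter (fun σ => σ i j = 0)).card
      = 3 ^ (m * m) := by
  have hcl : ∀ a : Fin 3,
      ((univ : Finset (Fin m → Fin m → Fin 3)).filter (fun σ => σ i j = a)).card =
      ((univ : Finset (Fin m → Fin m → Fin 3)).filter (fun σ => σ i j = 0)).card := by
    intro a
    refine Finset.card_bij' (fun σ _ => σ - Pi.single i (Pi.single j a))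
      (fun σ _ => σ + Pi.single i (Pi.single j a)) ?_ ?_ ?_ ?_
    · intro σ hσ
      simp only [mem_filter, mem_univ, true_and] at hσ ⊢
      simp [hσ]
    · intro σ hσ
      simp only [mem_filter, mem_univ, true_and] at hσ ⊢
      simp [hσ]
    · intro σ _
      simp
    · intro σ _
      simp
  have htot : (univ : Finset (Fin m → Fin m → Fin 3)).card =
      ∑ a : Fin 3, ((univ : Finset (Fin m → Fin m → Fin 3)).filter (fun σ => σ i j = a)).card :=
    Finset.card_eq_sum_card_fiberwise (f := fun σ : Fin m → Fin m → Fin 3 => σ i j)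
      (fun σ _ => mem_univ _)
  rw [Finset.sum_congr rfl (fun a _ => hcl a), Finset.sum_const, Finset.card_univ (α := Fin 3),
    Fintype.card_fin, smul_eq_mul] at htot
  rw [← htot, Finset.card_univ, Fintype.card_fun, Fintype.card_fun, Fintype.card_fin,
    Fintype.card_fin, ← pow_mul]

theorem s_zeros : ∀ (m : ℕ),
    3 * ∑ σ : Fin m → Fin m → Fin 3,
      ((univ : Finset (Fin m × Fin m)).filter (fun p => σ p.1 p.2 = 0)).card
      = m * m * 3 ^ (m * m) := by
  intro m
  have h1 : ∑ σ : Fin m → Fin m → Fin 3,
      ((univ : Finset (Fin m × Fin m)).filter (fun p => σ p.1 p.2 = 0)).card =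
      ∑ p : Fin m × Fin m,
        ((univ : Finset (Fin m → Fin m → Fin 3)).filter (fun σ => σ p.1 p.2 = 0)).card := by
    simp only [Finset.card_filter]
    exact Finset.sum_comm
  rw [h1, Finset.mul_sum, Finset.sum_congr rfl (fun p _ => zeros_one p.1 p.2), Finset.sum_const,
    Finset.card_univ, Fintype.card_prod, Fintype.card_fin, smul_eq_mul]

end Pool.Agent.R572.SH
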